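import Pool.Agent.L0h58.HN.Stm

/-! Project HN, module NON2 (helper6), after `Pool/Agent/L0h90/LT2/Non.lean`: the one-pass
nondeterministic program with `g` guesses. -/

set_option autoImplicit false

namespace Pool.Agent.L0h6.HN

open Finset Pool.Agent.L0h32.LT Pool.Agent.L0h32.LT2 Pool.Agent.L0h58.HN

/-- the step of the program -/
def stp {n K N ρ : ℕ} {F : Type} [Field F] (M : Fin n → (Fin K × Fin 6 × Fin ρ → ZMod 2))
    (e : (Fin ρ → ZMod 2) → F) (τ : Fin N → F) (i : Fin n) (v : Fin N × (Fin 6 → F)) (b : Bool) :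
    Fin N × (Fin 6 → F) :=
  (v.1, fun c => v.2 c +
    (if b = true then ∑ d : Fin K, τ v.1 ^ (d : ℕ) * e (fun a => M i (d, c, a)) else 0))

lemma fold_stp {n K N ρ : ℕ} {F : Type} [Field F] (M : Fin n → (Fin K × Fin 6 × Fin ρ → ZMod 2))
    (e : (Fin ρ → ZMod 2) → F) (τ : Fin N → F) (x : Inp n) (l : List (Fin n)) (j : Fin N)
    (v : Fin 6 → F) :
    l.foldl (fun v i => stp M e τ i v (x i)) (j, v) =
      (j, fun c => v c + (l.map (fun i => if x i = true then
        ∑ d : Fin K, τ j ^ (d : ℕ) * e (fun a => M i (d, c, a)) else 0)).sum) := by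
  induction l generalizing v with
  | nil => simp
  | cons i l ih =>
    rw [List.foldl_cons]
    have h : stp M e τ i (j, v) (x i) =
        (j, fun c => v c + (if x i = true then
          ∑ d : Fin K, τ j ^ (d : ℕ) * e (fun a => M i (d, c, a)) else 0)) := rfl
    rw [h, ih]
    refine Prod.ext rfl (funext fun c => ?_)
    simp only [List.map_cons, List.sum_cons, add_assoc]

lemma fold_ev {n K N ρ : ℕ} {F : Type} [Field F] (M : Fin n → (Fin K × Fin 6 × Fin ρ → ZMod 2))
    (e : (Fin ρ → ZMod 2) → F) (τ : Fin N → F) (x : Inp n) (j : Fin N) :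
    (List.finRange n).foldl (fun v i => stp M e τ i v (x i)) (j, fun _ => 0) =
      (j, ev τ (blk M e x) j) := by
  rw [fold_stp]
  refine Prod.ext rfl (funext fun c => ?_)
  simp only [zero_add]
  unfold ev blk
  rw [← List.ofFn_eq_map, List.sum_ofFn]
  simp_rw [Finset.mul_sum]
  rw [Finset.sum_comm]
  refine Finset.sum_congr rfl fun i _ => ?_
  by_cases h : x i = true
  · simp only [h, if_true]
  · simp [h]

/-- **Guessing** -/
theorem t_NON2 : S_NON2 := by
  intro n K N g ρ F _ _ e M τ hN hF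
  have hc : Fintype.card (Fin g → Bool) = Fintype.card (Fin N) := by
    rw [Fintype.card_fun, Fintype.card_bool, Fintype.card_fin, Fintype.card_fin, hN]
  let γ : (Fin g → Bool) ≃ Fin N := Fintype.equivOfCardEq hc
  refine ⟨Fin N × (Fin 6 → F), inferInstance, fun ω => (γ ω, fun _ => 0), stp M e τ,
    fun v => qf v.2 = 0, ?_, fun x => ?_⟩
  · rw [Nat.card_eq_fintype_card, Fintype.card_prod, Fintype.card_fun, hF, Fintype.card_fin,
      Fintype.card_fin, ← pow_mul, hN, ← pow_add]
    refine le_of_eq ?_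
    congr 1
    ring
  · simp only [fold_ev]
    constructor
    · rintro ⟨j, hj⟩
      refine ⟨γ.symm j, ?_⟩
      rw [Equiv.apply_symm_apply]
      exact hj
    · rintro ⟨ω, hω⟩
      exact ⟨γ ω, hω⟩

end Pool.Agent.L0h6.HN
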