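import Pool.Agent.L0h58.HN.Stm

/-! Project HN, module PAR3 (helper6), after `Pool/Agent/L0h44/LT2/Par.lean`. -/

set_option autoImplicit false

namespace Pool.Agent.L0h6.HN

open Pool.Agent.L0h32.LT2 Pool.Agent.L0h58.HN

theorem t_PAR3 : S_PAR3 := by
  intro J hJ
  obtain ⟨a, ha1, ha2⟩ : ∃ a : ℕ, J ≤ 2 ^ a ∧ 2 ^ a < 2 * J := by
    have hex : ∃ n : ℕ, J ≤ 2 ^ n := ⟨J, Nat.lt_two_pow_self.le⟩
    refine ⟨Nat.find hex, Nat.find_spec hex, ?_⟩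
    have h2 : Nat.find hex ≠ 0 := by
      intro h0
      have h1 := Nat.find_spec hex
      rw [h0, pow_zero] at h1
      omega
    obtain ⟨j, hj⟩ := Nat.exists_eq_succ_of_ne_zero h2
    have h3 := Nat.find_min hex (m := j) (by omega)
    rw [hj, Nat.succ_eq_add_one, pow_succ]
    omega
  obtain ⟨b, hb⟩ : ∃ b : ℕ, b = 2 ^ a := ⟨_, rfl⟩
  rw [← hb] at ha1 ha2
  have hab : a ≤ b := by rw [hb]; exact Nat.lt_two_pow_self.le
  refine ⟨4 * a + 30, ?_⟩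
  have hl : lam J (4 * a + 30) ≤ 23 * b := by unfold lam; omega
  have hJb : J ^ 2 ≤ b ^ 2 := Nat.pow_le_pow_left ha1 2
  have h1 : lam J (4 * a + 30) * J ^ 2 ≤ 23 * b * b ^ 2 := Nat.mul_le_mul hl hJb
  have hb2 : 2 ≤ b := by omega
  have hb3 : 4 * b ≤ b ^ 3 := by
    have : b ^ 3 = b * b * b := by ring
    rw [this]
    have h4 : 2 * 2 ≤ b * b := Nat.mul_le_mul hb2 hb2
    nlinarith
  have h5 : dx J (4 * a + 30) + 15 ≤ 65 * b ^ 3 := by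
    unfold dx
    have e1 : 2 * lam J (4 * a + 30) * J ^ 2 = 2 * (lam J (4 * a + 30) * J ^ 2) := by ring
    have e2 : 23 * b * b ^ 2 = 23 * b ^ 3 := by ring
    rw [e1]
    rw [e2] at h1
    omega
  calc 2 ^ 17 * (dx J (4 * a + 30) + 15) ≤ 2 ^ 17 * (65 * b ^ 3) := Nat.mul_le_mul_left _ h5
    _ ≤ 2 ^ 17 * (2 ^ 13 * (b ^ 3 * b)) := by
      apply Nat.mul_le_mul_left
      have : 65 * b ^ 3 ≤ 2 ^ 13 * b ^ 3 := Nat.mul_le_mul_right _ (by norm_num)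
      refine this.trans (Nat.mul_le_mul_left _ ?_)
      exact Nat.le_mul_of_pos_right _ (by omega)
    _ = 2 ^ (4 * a + 30) := by rw [hb]; ring

end Pool.Agent.L0h6.HN
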